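import Pool.Agent.Q160.SG.Stm

/-! # Project SG (helper160), JOB TRANSFER -/

set_option autoImplicit false

namespace Pool.Agent.Q275.SG

open Finset Pool.Agent.Q160.SG

variable {α β : Type} [LinearOrder α] [LinearOrder β]

theorem dropMax_image (φ : β → α) (W : Finset β) (hφ : StrictMonoOn φ W) (K : Finset β) (hK : K ⊆ W) :
    dropMax (K.image φ) = (dropMax K).image φ := by
  unfold dropMax
  rw [Finset.filter_image]
  congr 1
  refine Finset.filter_congr fun x hx => ?_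
  constructor
  · rintro ⟨y, hy, hxy⟩
    obtain ⟨w, hw, rfl⟩ := Finset.mem_image.1 hy
    exact ⟨w, hw, (hφ.lt_iff_lt (hK hx) (hK hw)).1 hxy⟩
  · rintro ⟨w, hw, hxw⟩
    exact ⟨φ w, Finset.mem_image_of_mem φ hw, (hφ.lt_iff_lt (hK hx) (hK hw)).2 hxw⟩

theorem dropMin_image (φ : β → α) (W : Finset β) (hφ : StrictMonoOn φ W) (K : Finset β) (hK : K ⊆ W) :
    dropMin (K.image φ) = (dropMin K).image φ := by
  unfold dropMin
  rw [Finset.filter_image]
  congr 1
  refine Finset.filter_congr fun x hx => ?_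
  constructor
  · rintro ⟨y, hy, hxy⟩
    obtain ⟨w, hw, rfl⟩ := Finset.mem_image.1 hy
    exact ⟨w, hw, (hφ.lt_iff_lt (hK hw) (hK hx)).1 hxy⟩
  · rintro ⟨w, hw, hxw⟩
    exact ⟨φ w, Finset.mem_image_of_mem φ hw, (hφ.lt_iff_lt (hK hw) (hK hx)).2 hxw⟩

theorem F_image (φ : β → α) (W : Finset β) (hφ : StrictMonoOn φ W) (r : ℕ) (c : Finset α → ℤ) :
    F r (fun K => c (K.image φ)) W = F r c (W.image φ) := by
  unfold F
  refine Finset.sum_nbij (fun K => K.image φ) ?_ ?_ ?_ ?_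
  · intro K hK
    rw [Finset.mem_powersetCard] at hK ⊢
    refine ⟨Finset.image_subset_image hK.1, ?_⟩
    rw [Finset.card_image_of_injOn (hφ.injOn.mono (Finset.coe_subset.2 hK.1)), hK.2]
  · intro K hK L hL he
    rw [Finset.mem_coe, Finset.mem_powersetCard] at hK hL
    have he2 : K.image φ = L.image φ := he
    ext x
    constructor
    · intro hx
      have h1 : φ x ∈ L.image φ := by
        rw [← he2]
        exact Finset.mem_image_of_mem φ hx
      obtain ⟨y, hy, hyx⟩ := Finset.mem_image.1 h1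
      rw [← hφ.injOn (hL.1 hy) (hK.1 hx) hyx]
      exact hy
    · intro hx
      have h1 : φ x ∈ K.image φ := by
        rw [he2]
        exact Finset.mem_image_of_mem φ hx
      obtain ⟨y, hy, hyx⟩ := Finset.mem_image.1 h1
      rw [← hφ.injOn (hK.1 hy) (hL.1 hx) hyx]
      exact hy
  · intro L hL
    rw [Finset.mem_coe, Finset.mem_powersetCard] at hL
    have h1 : (W.filter fun x => φ x ∈ L).image φ = L := by
      ext y
      rw [Finset.mem_image]
      constructor
      · rintro ⟨x, hx, rfl⟩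
        exact (Finset.mem_filter.1 hx).2
      · intro hy
        obtain ⟨x, hx, rfl⟩ := Finset.mem_image.1 (hL.1 hy)
        exact ⟨x, Finset.mem_filter.2 ⟨hx, hy⟩, rfl⟩
    refine ⟨W.filter fun x => φ x ∈ L, ?_, h1⟩
    rw [Finset.mem_coe, Finset.mem_powersetCard]
    refine ⟨Finset.filter_subset _ _, ?_⟩
    rw [← Finset.card_image_of_injOn (f := φ) (hφ.injOn.mono (Finset.coe_subset.2 (Finset.filter_subset _ _))),
      h1, hL.2]
  · intro K hK
    rw [Finset.mem_powersetCard] at hK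
    show c ((dropMax K).image φ) * c ((dropMin K).image φ) = c (dropMax (K.image φ)) * c (dropMin (K.image φ))
    rw [dropMax_image φ W hφ K hK.1, dropMin_image φ W hφ K hK.1]

/-- an increasing bijection -/
theorem exists_phi (A : Finset β) (W : Finset α) (h : A.card = W.card) (hW : W.Nonempty) :
    ∃ φ : β → α, StrictMonoOn φ A ∧ A.image φ = W := by
  obtain ⟨w0, _⟩ := hW
  obtain ⟨e, _⟩ : ∃ e : A ≃o W, True := ⟨(A.orderIsoOfFin h).symm.trans (W.orderIsoOfFin rfl), trivial⟩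
  refine ⟨fun x => if hx : x ∈ A then (e ⟨x, hx⟩ : α) else w0, ?_, ?_⟩
  · intro x hx y hy hxy
    rw [Finset.mem_coe] at hx hy
    show (if hx : x ∈ A then (e ⟨x, hx⟩ : α) else w0) < (if hx : y ∈ A then (e ⟨y, hx⟩ : α) else w0)
    rw [dif_pos hx, dif_pos hy]
    have h1 : (⟨x, hx⟩ : A) < ⟨y, hy⟩ := hxy
    exact e.strictMono h1
  · ext y
    rw [Finset.mem_image]
    constructor
    · rintro ⟨x, hx, rfl⟩
      show (if hx : x ∈ A then (e ⟨x, hx⟩ : α) else w0) ∈ W
      rw [dif_pos hx]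
      exact (e ⟨x, hx⟩).2
    · intro hy
      refine ⟨(e.symm ⟨y, hy⟩ : β), (e.symm ⟨y, hy⟩).2, ?_⟩
      show (if hx : (e.symm ⟨y, hy⟩ : β) ∈ A then (e ⟨(e.symm ⟨y, hy⟩ : β), hx⟩ : α) else w0) = y
      rw [dif_pos (e.symm ⟨y, hy⟩).2]
      have h1 : (⟨(e.symm ⟨y, hy⟩ : β), (e.symm ⟨y, hy⟩).2⟩ : A) = e.symm ⟨y, hy⟩ := rfl
      rw [h1, OrderIso.apply_symm_apply]

theorem t_TRANSFER : J_TRANSFER := by
  intro hV hM hC α _ W r c hc
  rcases W.eq_empty_or_nonempty with h0 | h0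
  · subst h0
    have h1 : F r c (∅ : Finset α) = 0 := by
      unfold F
      rw [Finset.powersetCard_eq_empty.2 (by simp)]
      simp
    rw [h1]
    simp
  · obtain ⟨z, hz⟩ : ∃ z, z = W.card % 2 := ⟨_, rfl⟩
    obtain ⟨m, hm⟩ : ∃ m, m = W.card / 2 := ⟨_, rfl⟩
    have hz1 : z ≤ 1 := by omega
    have hn : 2 * m + z = W.card := by omega
    have hm2 : m + z = (W.card + 1) / 2 := by omega
    obtain ⟨φ, hφ, hi⟩ := exists_phi (V z m) W (by rw [hV.1 z m hz1, hn]) h0
    have h1 := hM z r m (fun K => c (K.image φ)) hz1 (fun K => hc _)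
    rw [F_image φ (V z m) hφ, hi, hC z r m hz1, hn, hm2, hm] at h1
    linarith

end Pool.Agent.Q275.SG
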